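import Pool.Agent.H940R3.Flow.Sub

open scoped Topology ENNReal ComplexConjugate ContDiff
open MeasureTheory Filter Metric Pool.Agent.Helper853 Pool.Agent.Helper853.Df

namespace Pool.Agent.H940R3.Flow

variable {n : ℕ}

lemma rot_integral {g : (Fin n → ℂ) → ℝ} {ρ : ℝ} (c : ℂ) (hc : ‖c‖ = 1) :
    ∫ x in ball (0 : Fin n → ℂ) ρ, g (c • x) = ∫ x in ball (0 : Fin n → ℂ) ρ, g x := by
  have hemb : MeasurableEmbedding (fun x : Fin n → ℂ => c • x) := by
    have hc0 : c ≠ 0 := by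
      rintro rfl
      simp at hc
    exact (Homeomorph.smulOfNeZero c hc0).measurableEmbedding
  have hpre : (fun x : Fin n → ℂ => c • x) ⁻¹' (ball 0 ρ) = ball 0 ρ := by
    ext x
    simp [norm_smul, hc]
  have := (mp_rot (n := n) c hc).setIntegral_preimage_emb hemb g (ball 0 ρ)
  rw [hpre] at this
  exact this

/-- sub-mean value property on balls of the sup norm -/
lemma submean_ball {Ω : Set (Fin n → ℂ)} {g : (Fin n → ℂ) → ℝ}
    (hc : ContinuousOn g Ω) (hC : ∀ x ∈ Ω, ContDiffAt ℝ 2 g x)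
    (hL : ∀ x ∈ Ω, ∀ b, 0 ≤ lap2 g x b) {a : Fin n → ℂ} {ρ : ℝ}
    (hρ : closedBall a ρ ⊆ Ω) :
    g a * (volume (ball (0 : Fin n → ℂ) ρ)).toReal ≤ ∫ x in ball (0 : Fin n → ℂ) ρ, g (a + x) := by
  set B := ball (0 : Fin n → ℂ) ρ with hB
  have hmem : ∀ b ∈ closedBall (0 : Fin n → ℂ) ρ, ∀ ζ : ℂ, ‖ζ‖ ≤ 1 → a + ζ • b ∈ Ω := by
    intro b hb ζ hζ
    apply hρ
    rw [mem_closedBall, dist_eq_norm, add_sub_cancel_left, norm_smul]
    rw [mem_closedBall_zero_iff] at hb
    calc ‖ζ‖ * ‖b‖ ≤ 1 * ‖b‖ := by gcongr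
      _ ≤ ρ := by linarith
  set G : ℝ × (Fin n → ℂ) → ℝ := fun p => g (a + Complex.exp (p.1 * Complex.I) • p.2) with hG
  have hGc : ContinuousOn G (Set.Icc 0 (2 * Real.pi) ×ˢ closedBall (0 : Fin n → ℂ) ρ) := by
    apply hc.comp (by fun_prop)
    rintro ⟨θ, b⟩ ⟨_, hb⟩
    exact hmem b hb _ (by rw [Complex.norm_exp_ofReal_mul_I])
  have hGi : IntegrableOn G (Set.Ioc 0 (2 * Real.pi) ×ˢ B) := by
    have := hGc.integrableOn_compact (μ := volume)
      (isCompact_Icc.prod (isCompact_closedBall (0 : Fin n → ℂ) ρ))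
    exact this.mono_set (Set.prod_mono Set.Ioc_subset_Icc_self ball_subset_closedBall)
  have hGi' : Integrable G ((volume.restrict (Set.Ioc 0 (2 * Real.pi))).prod
      (volume.restrict B)) := by
    rw [Measure.prod_restrict]
    exact hGi
  have hfin : volume B ≠ ⊤ := measure_ball_lt_top.ne
  have hpi : (0 : ℝ) < 2 * Real.pi := by positivity
  -- pointwise inequality
  have h1 : ∫ x in B, g a ≤ ∫ x in B, (2 * Real.pi)⁻¹ *
      ∫ θ in Set.Ioc 0 (2 * Real.pi), G (θ, x) := by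
    apply setIntegral_mono_on
    · exact integrableOn_const hfin
    · exact (hGi'.integral_prod_right).const_mul _
    · exact isOpen_ball.measurableSet
    · intro x hx
      have := submean_disc hc hC hL (hmem x (ball_subset_closedBall hx))
      rw [intervalIntegral.integral_of_le hpi.le] at this
      exact this
  have h2 : ∫ x in B, (2 * Real.pi)⁻¹ * ∫ θ in Set.Ioc 0 (2 * Real.pi), G (θ, x) =
      (2 * Real.pi)⁻¹ * ∫ θ in Set.Ioc 0 (2 * Real.pi), ∫ x in B, G (θ, x) := by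
    rw [integral_const_mul]
    congr 1
    exact (integral_integral_swap (f := fun θ x => G (θ, x)) hGi').symm
  have h3 : ∀ θ : ℝ, ∫ x in B, G (θ, x) = ∫ x in B, g (a + x) := by
    intro θ
    exact rot_integral (g := fun x => g (a + x)) (Complex.exp (θ * Complex.I))
      (Complex.norm_exp_ofReal_mul_I θ)
  rw [h2] at h1
  simp_rw [h3] at h1
  simp only [integral_const, MeasurableSet.univ, measureReal_restrict_apply, Set.univ_inter,
    Real.volume_real_Ioc, smul_eq_mul, sub_zero] at h1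
  rw [max_eq_left hpi.le, ← mul_assoc, inv_mul_cancel₀ hpi.ne', one_mul] at h1
  rw [mul_comm]
  exact h1

/-- maximum principle on a bounded domain -/
lemma le_of_boundary {Ω : Set (Fin n → ℂ)} (hΩ : IsOpen Ω) (hb : Bornology.IsBounded Ω)
    (hn : 1 ≤ n) {g : (Fin n → ℂ) → ℝ} (hc : ContinuousOn g (closure Ω))
    (hC : ∀ x ∈ Ω, ContDiffAt ℝ 2 g x) (hL : ∀ x ∈ Ω, ∀ b, b ≠ 0 → 0 < lap2 g x b) {M : ℝ}
    (hM : ∀ x ∈ frontier Ω, g x ≤ M) {z : Fin n → ℂ} (hz : z ∈ closure Ω) : g z ≤ M := by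
  have hK : IsCompact (closure Ω) := hb.isCompact_closure
  obtain ⟨w, hw, hmax⟩ := hK.exists_isMaxOn ⟨z, hz⟩ hc
  have hwle : g z ≤ g w := hmax hz
  by_cases hwΩ : w ∈ Ω
  · exfalso
    have hloc : IsLocalMax g w := hmax.isLocalMax (mem_of_superset (hΩ.mem_nhds hwΩ) subset_closure)
    have hne : (fun _ : Fin n => (1 : ℂ)) ≠ 0 := by
      intro h
      have := congrFun h ⟨0, hn⟩
      simp at this
    have h1 := lap2_nonpos_of_isLocalMax (hC w hwΩ) hloc (fun _ => 1)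
    have h2 := hL w hwΩ _ hne
    linarith
  · have : w ∈ frontier Ω := by
      rw [frontier, hΩ.interior_eq]
      exact ⟨hw, hwΩ⟩
    exact hwle.trans (hM w this)

end Pool.Agent.H940R3.Flow
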