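import Pool.Agent.H940R3.Flow.Hartogs

open scoped Topology ENNReal ComplexConjugate ContDiff ComplexOrder
open MeasureTheory Filter Metric Pool.Agent.Helper853 Pool.Agent.Helper853.Df

namespace Pool.Agent.H940R3.Flow

variable {n : ℕ}

/-- the square of the Euclidean distance of `z` and `a` in `ℂ^n` -/
noncomputable def nsq (a z : Fin n → ℂ) : ℝ := ∑ j, ‖z j - a j‖ ^ 2

lemma nsq_nonneg (a z : Fin n → ℂ) : 0 ≤ nsq a z := Finset.sum_nonneg fun _ _ => by positivity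

lemma continuous_nsq (a : Fin n → ℂ) : Continuous (nsq a) := by
  unfold nsq
  fun_prop

/-- the functions whose squares add up to `δ + |z - a|²` -/
noncomputable def FF' (a : Fin n → ℂ) (δ : ℝ) : Option (Fin n) → (Fin n → ℂ) → ℂ
  | none => fun _ => ((Real.sqrt δ : ℝ) : ℂ)
  | some j => fun z => z j - a j

lemma contDiff_FF' (a : Fin n → ℂ) (δ : ℝ) (j : Option (Fin n)) : ContDiff ℂ ∞ (FF' a δ j) := by
  cases j with
  | none => exact contDiff_const
  | some j =>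
    have : ContDiff ℂ ∞ (fun z : Fin n → ℂ => z j - a j) :=
      (contDiff_apply ℂ ℂ j).sub contDiff_const
    exact this

lemma sumSq_FF' (a : Fin n → ℂ) {δ : ℝ} (hδ : 0 ≤ δ) (z : Fin n → ℂ) :
    sumSq (FF' a δ) z = δ + nsq a z := by
  unfold sumSq nsq
  rw [Fintype.sum_option]
  congr 1
  simp only [FF']
  rw [Complex.norm_real, Real.norm_of_nonneg (Real.sqrt_nonneg _), Real.sq_sqrt hδ]

lemma fderiv_FF'_none (a : Fin n → ℂ) (δ : ℝ) (x v : Fin n → ℂ) :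
    fderiv ℝ (FF' a δ none) x v = 0 := by
  have : FF' a δ none = fun _ => ((Real.sqrt δ : ℝ) : ℂ) := rfl
  rw [this]
  simp

lemma fderiv_FF'_some (a : Fin n → ℂ) (δ : ℝ) (j : Fin n) (x v : Fin n → ℂ) :
    fderiv ℝ (FF' a δ (some j)) x v = v j := by
  have h : HasFDerivAt (FF' a δ (some j))
      (ContinuousLinearMap.proj (R := ℝ) (φ := fun _ : Fin n => ℂ) j) x := by
    have h1 : HasFDerivAt (fun z : Fin n → ℂ => z j)
      (ContinuousLinearMap.proj (R := ℝ) (φ := fun _ : Fin n => ℂ) j) x :=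
      hasFDerivAt_apply j x
    exact h1.sub_const (a j)
  rw [h.fderiv]
  rfl

/-- the logarithmic barrier -/
noncomputable def lg (a : Fin n → ℂ) (δ : ℝ) (z : Fin n → ℂ) : ℝ := Real.log (δ + nsq a z)

lemma lg_eq (a : Fin n → ℂ) {δ : ℝ} (hδ : 0 ≤ δ) :
    lg a δ = fun y => Real.log (sumSq (FF' a δ) y) := by
  ext y
  rw [sumSq_FF' a hδ]
  rfl

lemma pos_S (a : Fin n → ℂ) {δ : ℝ} (hδ : 0 < δ) (z : Fin n → ℂ) : 0 < δ + nsq a z := by
  have := nsq_nonneg a z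
  linarith

lemma contDiff_lg (a : Fin n → ℂ) {δ : ℝ} (hδ : 0 < δ) : ContDiff ℝ ∞ (lg a δ) := by
  rw [lg_eq a hδ.le]
  apply (contDiff_sumSq (contDiff_FF' a δ)).log
  intro x
  rw [sumSq_FF' a hδ.le]
  exact (pos_S a hδ x).ne'

lemma lap2_lg_le (a : Fin n → ℂ) {δ : ℝ} (hδ : 0 < δ) (x v : Fin n → ℂ) :
    lap2 (lg a δ) x v ≤ 4 * (∑ j, ‖v j‖ ^ 2) / (δ + nsq a x) := by
  have hS := pos_S a hδ x
  have hpos : 0 < sumSq (FF' a δ) x := by rw [sumSq_FF' a hδ.le]; exact hS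
  rw [lg_eq a hδ.le, lap2_log_sumSq (contDiff_FF' a δ) hpos v, sumSq_FF' a hδ.le]
  have e : ∑ j, ‖fderiv ℝ (FF' a δ j) x v‖ ^ 2 = ∑ j, ‖v j‖ ^ 2 := by
    rw [Fintype.sum_option, fderiv_FF'_none]
    simp only [fderiv_FF'_some]
    simp
  rw [e, div_le_div_iff₀ (by positivity) hS]
  have h0 : 0 ≤ ‖∑ j, conj (FF' a δ j x) * fderiv ℝ (FF' a δ j) x v‖ ^ 2 := by positivity
  have h1 : 0 ≤ ‖∑ j, conj (FF' a δ j x) * fderiv ℝ (FF' a δ j) x v‖ ^ 2 * (δ + nsq a x) := by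
    positivity
  nlinarith

lemma lap2_lg_nonneg (a : Fin n → ℂ) {δ : ℝ} (hδ : 0 < δ) (x v : Fin n → ℂ) :
    0 ≤ lap2 (lg a δ) x v := by
  have hS := pos_S a hδ x
  have hpos : 0 < sumSq (FF' a δ) x := by rw [sumSq_FF' a hδ.le]; exact hS
  rw [lg_eq a hδ.le, lap2_log_sumSq (contDiff_FF' a δ) hpos v]
  have := cauchy_sumSq (fun j => FF' a δ j x) (fun j => fderiv ℝ (FF' a δ j) x v)
  have h2 : 0 ≤ sumSq (FF' a δ) x * ∑ j, ‖fderiv ℝ (FF' a δ j) x v‖ ^ 2 -
      ‖∑ j, conj (FF' a δ j x) * fderiv ℝ (FF' a δ j) x v‖ ^ 2 := by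
    have e : sumSq (FF' a δ) x = ∑ j, ‖FF' a δ j x‖ ^ 2 := rfl
    rw [e]
    linarith
  positivity

/-- arithmetic-geometric mean inequality for positive matrices -/
lemma log_det_le {G : Matrix (Fin n) (Fin n) ℂ} (hG : G.PosDef) {c : ℝ} (hc : 0 < c) :
    Real.log G.det.re ≤ G.trace.re / c - n + n * Real.log c := by
  have h1 := hG.1.det_eq_prod_eigenvalues
  have h2 := hG.1.trace_eq_sum_eigenvalues
  rw [h1, h2]
  have e1 : (∏ i, ((hG.1.eigenvalues i : ℝ) : ℂ)).re = ∏ i, hG.1.eigenvalues i := by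
    rw [← Complex.ofReal_prod, Complex.ofReal_re]
  have e2 : (∑ i, ((hG.1.eigenvalues i : ℝ) : ℂ)).re = ∑ i, hG.1.eigenvalues i := by
    rw [← Complex.ofReal_sum, Complex.ofReal_re]
  change Real.log (∏ i, ((hG.1.eigenvalues i : ℝ) : ℂ)).re ≤
    (∑ i, ((hG.1.eigenvalues i : ℝ) : ℂ)).re / c - n + n * Real.log c
  rw [e1, e2, Real.log_prod (fun i _ => (hG.eigenvalues_pos i).ne')]
  have h3 : ∀ i : Fin n, Real.log (hG.1.eigenvalues i) ≤
      hG.1.eigenvalues i / c - 1 + Real.log c := by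
    intro i
    have hp := hG.eigenvalues_pos i
    have := Real.log_le_sub_one_of_pos (div_pos hp hc)
    rw [Real.log_div hp.ne' hc.ne'] at this
    linarith
  calc ∑ i, Real.log (hG.1.eigenvalues i)
      ≤ ∑ i, (hG.1.eigenvalues i / c - 1 + Real.log c) := Finset.sum_le_sum fun i _ => h3 i
    _ = _ := by
      rw [Finset.sum_add_distrib, Finset.sum_sub_distrib, Finset.sum_div]
      simp

lemma trace_cHess {g : (Fin n → ℂ) → ℝ} {x : Fin n → ℂ} (hg : ContDiffAt ℝ 2 g x) :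
    (cHess g x).trace.re = (1 / 4) * ∑ j, lap2 g x (Pi.single j 1) := by
  rw [Matrix.trace, Complex.re_sum, Finset.mul_sum]
  apply Finset.sum_congr rfl
  intro j _
  rw [Matrix.diag_apply, cHess_apply hg]
  have hI : Complex.I • (Pi.single j (1 : ℂ) : Fin n → ℂ) = Pi.single j Complex.I := by
    rw [← Pi.single_smul]
    simp
  unfold lap2
  rw [hI]
  simp

/-- At an interior maximum of `g - c |log|`, the Monge-Ampere operator of `g` is bounded. -/
lemma log_det_at_max {g : (Fin n → ℂ) → ℝ} {x a : Fin n → ℂ} (hg : ContDiffAt ℝ 2 g x)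
    (hpos : (cHess g x).PosDef) {c δ : ℝ} (hc : 0 < c) (hδ : 0 < δ)
    (hmax : IsLocalMax (fun y => g y + (-c) * lg a δ y) x) :
    Real.log (cHess g x).det.re ≤ n * Real.log (c / (δ + nsq a x)) := by
  have hS := pos_S a hδ x
  have hlgc : ContDiffAt ℝ 2 (lg a δ) x :=
    ((contDiff_lg a hδ).of_le ENat.LEInfty.out).contDiffAt
  have h1 : ∀ j : Fin n, lap2 g x (Pi.single j 1) ≤ c * (4 / (δ + nsq a x)) := by
    intro j
    have hcd : ContDiffAt ℝ 2 (fun y => g y + (-c) * lg a δ y) x :=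
      hg.add (contDiffAt_const.mul hlgc)
    have h2 := lap2_nonpos_of_isLocalMax hcd hmax (Pi.single j 1)
    rw [lap2_add hg (contDiffAt_const.mul hlgc), lap2_const_mul hlgc] at h2
    have h3 := lap2_lg_le a hδ x (Pi.single j 1)
    have h4 : ∑ k, ‖(Pi.single j (1 : ℂ) : Fin n → ℂ) k‖ ^ 2 = 1 := by
      rw [Finset.sum_eq_single j]
      · simp
      · intro b _ hb
        simp [hb]
      · simp
    rw [h4, mul_one] at h3
    have h5 := mul_le_mul_of_nonneg_left h3 hc.le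
    linarith
  have h2 : (cHess g x).trace.re ≤ n * (c / (δ + nsq a x)) := by
    rw [trace_cHess hg]
    have : ∑ j, lap2 g x (Pi.single j 1) ≤ ∑ _j : Fin n, c * (4 / (δ + nsq a x)) :=
      Finset.sum_le_sum fun j _ => h1 j
    rw [Finset.sum_const, Finset.card_univ, Fintype.card_fin, nsmul_eq_mul] at this
    calc (1 / 4) * ∑ j, lap2 g x (Pi.single j 1)
        ≤ (1 / 4) * (n * (c * (4 / (δ + nsq a x)))) := by gcongr
      _ = n * (c / (δ + nsq a x)) := by ring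
  have hcS : 0 < c / (δ + nsq a x) := by positivity
  have h3 := log_det_le hpos hcS
  have h4 : (cHess g x).trace.re / (c / (δ + nsq a x)) ≤ n := by
    rw [div_le_iff₀ hcS]
    exact h2
  linarith

/-- a function on an interval which is largest at the right end has nonnegative derivative there -/
lemma deriv_nonneg_of_max {h : ℝ → ℝ} {h' s₀ ε : ℝ} (hε : ε < s₀) (hd : HasDerivAt h h' s₀)
    (hm : ∀ s ∈ Set.Icc ε s₀, h s ≤ h s₀) : 0 ≤ h' := by
  by_contra hneg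
  push Not at hneg
  have h1 := (hasDerivAt_iff_tendsto_slope.mp hd).mono_left
    (nhdsWithin_mono s₀ (fun x (hx : x ∈ Set.Iio s₀) => (ne_of_lt hx : x ≠ s₀)))
  have h2 : ∀ᶠ s in 𝓝[<] s₀, slope h s₀ s < 0 := h1.eventually (gt_mem_nhds hneg)
  have h3 : ∀ᶠ s in 𝓝[<] s₀, s ∈ Set.Ioo ε s₀ := Ioo_mem_nhdsLT hε
  obtain ⟨s, hs1, hs2⟩ := (h2.and h3).exists
  rw [slope_def_field] at hs1
  have h4 := hm s ⟨hs2.1.le, hs2.2.le⟩
  have h5 : s - s₀ < 0 := by linarith [hs2.2]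
  have h6 : 0 ≤ (h s - h s₀) / (s - s₀) := div_nonneg_of_nonpos (by linarith) h5.le
  linarith

end Pool.Agent.H940R3.Flow
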