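import Pool.Agent.H940R3.Flow.Barrier

open scoped Topology ENNReal ComplexConjugate ContDiff ComplexOrder
open MeasureTheory Filter Metric Pool.Agent.Helper853 Pool.Agent.Helper853.Df

namespace Pool.Agent.H940R3.Flow

variable {n : ℕ}

lemma norm_le_of_nsq {a z : Fin n → ℂ} {R : ℝ} (hR : 0 ≤ R) (h : nsq a z ≤ R ^ 2) :
    z ∈ closedBall a R := by
  rw [mem_closedBall, dist_eq_norm, pi_norm_le_iff_of_nonneg hR]
  intro j
  rw [Pi.sub_apply]
  have h1 : ‖z j - a j‖ ^ 2 ≤ nsq a z :=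
    Finset.single_le_sum (f := fun j => ‖z j - a j‖ ^ 2) (fun i _ => by positivity)
      (Finset.mem_univ j)
  exact abs_le_of_sq_le_sq' (h1.trans h) hR |>.2

/-- The core estimate: the value at the pole. -/
lemma core_estimate {u : (Fin n → ℂ) → ℝ → ℝ} {a : Fin n → ℂ}
    {R T M ν C : ℝ} (hR : 0 < R) (hν : 0 < ν)
    (hC : ∀ t ∈ Set.Ioo 0 T, ∀ x ∈ closedBall a (2 * R), ContDiffAt ℝ 2 (fun w => u w t) x)
    (hcont : ContinuousOn (fun p : (Fin n → ℂ) × ℝ => u p.1 p.2)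
      (closedBall a (2 * R) ×ˢ Set.Ioo 0 T))
    (hpos : ∀ t ∈ Set.Ioo 0 T, ∀ x ∈ closedBall a (2 * R), (cHess (fun w => u w t) x).PosDef)
    (hflow : ∀ t ∈ Set.Ioo 0 T, ∀ x ∈ closedBall a (2 * R),
      HasDerivAt (fun s => u x s) (Real.log (cHess (fun w => u w t) x).det.re) t)
    (hM : ∀ t ∈ Set.Ioo 0 T, ∀ x ∈ closedBall a (2 * R), u x t ≤ M)
    {t₁ δ : ℝ} (ht₁0 : 0 < t₁) (ht₁T : t₁ < T) (ht₁ : n * t₁ ≤ ν / 4) (hδ0 : 0 < δ) (hδ1 : δ ≤ 1)
    (hlim : ∀ᵐ x ∂(volume.restrict (closedBall a (2 * R))),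
      ∀ ε > 0, ∀ᶠ t in 𝓝[>] (0 : ℝ), u x t ≤ (ν / 2 * lg a δ x + C) + ε) :
    u a t₁ ≤ (ν / 4) * (Real.log δ - Real.log (R ^ 2)) +
      max M (ν / 2 * Real.log (R ^ 2 + 1) + C + 1) +
        (n * (|Real.log (ν / 2)| + |Real.log (R ^ 2)|) + 1) * t₁ := by
  set C₁ := max M (ν / 2 * Real.log (R ^ 2 + 1) + C + 1) with hC₁
  set K := n * (|Real.log (ν / 2)| + |Real.log (R ^ 2)|) + 1 with hKdef
  have hKpos : 0 < K := by positivity
  have hf : Continuous fun x => ν / 2 * lg a δ x + C :=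
    (continuous_const.mul (contDiff_lg a hδ0).continuous).add continuous_const
  have hTpos : 0 < T := ht₁0.trans ht₁T
  have hL : ∀ t ∈ Set.Ioo 0 T, ∀ x ∈ closedBall a (2 * R), ∀ b,
      0 ≤ lap2 (fun w => u w t) x b := fun t ht x hx =>
    (cHess_posSemidef_iff (hC t ht x hx)).mp (hpos t ht x hx).posSemidef
  have hH := hartogs hR hTpos hC hL hM hf hlim one_pos
  have hev : ∀ᶠ t in 𝓝[>] (0 : ℝ), t ∈ Set.Ioo 0 t₁ := Ioo_mem_nhdsGT ht₁0
  obtain ⟨ε, hε, hεt⟩ := (hH.and hev).exists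
  have hR2 : 0 < R ^ 2 := by positivity
  have hlogR : Real.log (R ^ 2 + δ) ≤ Real.log (R ^ 2 + 1) :=
    Real.log_le_log (by positivity) (by linarith)
  have hlogR' : Real.log (R ^ 2) ≤ Real.log (R ^ 2 + δ) :=
    Real.log_le_log (by positivity) (by linarith)
  set c : ℝ → ℝ := fun s => ν / 2 - n * (s - ε) with hc
  have hcb : ∀ s ∈ Set.Icc ε t₁, ν / 4 ≤ c s ∧ c s ≤ ν / 2 := by
    intro s hs
    have h1 : 0 ≤ (n : ℝ) * (s - ε) := mul_nonneg (by positivity) (by linarith [hs.1])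
    have h2 : (n : ℝ) * (s - ε) ≤ n * t₁ :=
      mul_le_mul_of_nonneg_left (by linarith [hs.2, hεt.1]) (by positivity)
    simp only [hc]
    constructor <;> linarith
  set W : (Fin n → ℂ) → ℝ → ℝ := fun z s =>
    c s * (lg a δ z - Real.log (R ^ 2 + δ)) + C₁ + K * (s - ε) with hW
  set H : (Fin n → ℂ) × ℝ → ℝ := fun p => u p.1 p.2 - W p.1 p.2 with hHdef
  set D : Set (Fin n → ℂ) := {z | nsq a z ≤ R ^ 2} with hD
  have hDsub : D ⊆ closedBall a R := fun z hz => norm_le_of_nsq hR.le hz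
  have hDsub2 : D ⊆ closedBall a (2 * R) :=
    hDsub.trans (closedBall_subset_closedBall (by linarith))
  have hDcl : IsClosed D := isClosed_le (continuous_nsq a) continuous_const
  have hDc : IsCompact D := (isCompact_closedBall a R).of_isClosed_subset hDcl hDsub
  have haD : a ∈ D := by
    have : nsq a a = 0 := by simp [nsq]
    simp only [hD, Set.mem_ofPred_eq, this]
    positivity
  have hIcc : Set.Icc ε t₁ ⊆ Set.Ioo 0 T := fun s hs =>
    ⟨lt_of_lt_of_le hεt.1 hs.1, lt_of_le_of_lt hs.2 ht₁T⟩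
  have hlgc : Continuous (lg a δ) := (contDiff_lg a hδ0).continuous
  have hWc : Continuous fun p : (Fin n → ℂ) × ℝ => W p.1 p.2 := by
    simp only [hW, hc]
    fun_prop
  have hHc : ContinuousOn H (D ×ˢ Set.Icc ε t₁) :=
    (hcont.mono (Set.prod_mono hDsub2 hIcc)).sub hWc.continuousOn
  have hmemt : t₁ ∈ Set.Icc ε t₁ := ⟨hεt.2.le, le_rfl⟩
  obtain ⟨⟨z₀, s₀⟩, ⟨hz₀, hs₀⟩, hmax⟩ := (hDc.prod isCompact_Icc).exists_isMaxOn
    ⟨(a, t₁), haD, hmemt⟩ hHc
  have hle : H (z₀, s₀) ≤ 0 := by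
    by_contra hpos0
    push Not at hpos0
    have hs₀T := hIcc hs₀
    have hz₀2 := hDsub2 hz₀
    have hcs := hcb s₀ hs₀
    have hcs0 : 0 < c s₀ := by linarith [hcs.1]
    have hS := pos_S a hδ0 z₀
    have hlgle : lg a δ z₀ ≤ Real.log (R ^ 2 + δ) :=
      Real.log_le_log hS (by have : nsq a z₀ ≤ R ^ 2 := hz₀; linarith)
    rcases eq_or_lt_of_le hs₀.1 with h | h
    · -- bottom
      have h1 := hε z₀ (hDsub hz₀)
      have hse : s₀ = ε := h.symm
      simp only [hHdef, hW, hc, hse, sub_self, mul_zero, sub_zero, add_zero] at hpos0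
      have h2 : ν / 2 * Real.log (R ^ 2 + 1) + C + 1 ≤ C₁ := le_max_right _ _
      have h3 : ν / 2 * Real.log (R ^ 2 + δ) ≤ ν / 2 * Real.log (R ^ 2 + 1) := by gcongr
      nlinarith
    · rcases eq_or_lt_of_le (show nsq a z₀ ≤ R ^ 2 from hz₀) with h' | h'
      · -- lateral
        have h1 : lg a δ z₀ = Real.log (R ^ 2 + δ) := by
          unfold lg
          rw [h', add_comm]
        simp only [hHdef, hW, h1, sub_self, mul_zero, zero_add] at hpos0
        have h2 := hM s₀ hs₀T z₀ hz₀2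
        have h3 : M ≤ C₁ := le_max_left _ _
        have h4 : 0 ≤ K * (s₀ - ε) := mul_nonneg hKpos.le (by linarith)
        linarith
      · -- interior
        have hloc : IsLocalMax (fun y => u y s₀ + (-(c s₀)) * lg a δ y) z₀ := by
          have hopen : {z | nsq a z < R ^ 2} ∈ 𝓝 z₀ :=
            (isOpen_lt (continuous_nsq a) continuous_const).mem_nhds h'
          filter_upwards [hopen] with y hy
          have h1 : H (y, s₀) ≤ H (z₀, s₀) := hmax ⟨le_of_lt hy, hs₀⟩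
          simp only [hHdef, hW] at h1
          linarith
        have hspace := log_det_at_max (hC s₀ hs₀T z₀ hz₀2) (hpos s₀ hs₀T z₀ hz₀2) hcs0 hδ0 hloc
        have hd1 := hflow s₀ hs₀T z₀ hz₀2
        have hd2 : HasDerivAt (fun s => W z₀ s)
            (-n * (lg a δ z₀ - Real.log (R ^ 2 + δ)) + K) s₀ := by
          have e1 : HasDerivAt (fun s : ℝ => c s) (-n) s₀ := by
            have := (((hasDerivAt_id s₀).sub_const ε).const_mul (n : ℝ)).const_sub (ν / 2)
            simpa using this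
          have e2 := (e1.mul_const (lg a δ z₀ - Real.log (R ^ 2 + δ))).add_const C₁
          have e3 : HasDerivAt (fun s : ℝ => K * (s - ε)) K s₀ := by
            have := ((hasDerivAt_id s₀).sub_const ε).const_mul K
            simpa using this
          exact e2.add e3
        have hd := hd1.sub hd2
        have htime := deriv_nonneg_of_max h hd (by
          intro s hs
          have : H (z₀, s) ≤ H (z₀, s₀) := hmax ⟨hz₀, hs.1, hs.2.trans hs₀.2⟩
          exact this)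
        have hlogdiv : Real.log (c s₀ / (δ + nsq a z₀)) = Real.log (c s₀) - lg a δ z₀ :=
          Real.log_div hcs0.ne' hS.ne'
        rw [hlogdiv] at hspace
        have h5 : Real.log (c s₀) ≤ |Real.log (ν / 2)| :=
          (Real.log_le_log hcs0 hcs.2).trans (le_abs_self _)
        have h6 : -|Real.log (R ^ 2)| ≤ Real.log (R ^ 2 + δ) :=
          (neg_abs_le _).trans hlogR'
        have h7 : (n : ℝ) * (Real.log (c s₀) - Real.log (R ^ 2 + δ)) ≤
            n * (|Real.log (ν / 2)| + |Real.log (R ^ 2)|) := by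
          apply mul_le_mul_of_nonneg_left _ (by positivity)
          linarith
        have h8 : (n : ℝ) * (Real.log (c s₀) - lg a δ z₀) -
            (-n * (lg a δ z₀ - Real.log (R ^ 2 + δ)) + K) =
            n * (Real.log (c s₀) - Real.log (R ^ 2 + δ)) - K := by ring
        linarith
  have hfin : H (a, t₁) ≤ H (z₀, s₀) := hmax ⟨haD, hmemt⟩
  have hlga : lg a δ a = Real.log δ := by
    unfold lg
    simp [nsq]
  have h1 : u a t₁ ≤ W a t₁ := by
    have : H (a, t₁) ≤ 0 := hfin.trans hle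
    simp only [hHdef] at this
    linarith
  have h2 : W a t₁ ≤ (ν / 4) * (Real.log δ - Real.log (R ^ 2)) + C₁ + K * t₁ := by
    simp only [hW, hlga]
    have hcs := (hcb t₁ hmemt).1
    have h3 : Real.log δ - Real.log (R ^ 2 + δ) ≤ 0 := by
      have := Real.log_le_log hδ0 (show δ ≤ R ^ 2 + δ by linarith)
      linarith
    have h4 : c t₁ * (Real.log δ - Real.log (R ^ 2 + δ)) ≤
        ν / 4 * (Real.log δ - Real.log (R ^ 2 + δ)) :=
      mul_le_mul_of_nonpos_right hcs h3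
    have h5 : ν / 4 * (Real.log δ - Real.log (R ^ 2 + δ)) ≤
        ν / 4 * (Real.log δ - Real.log (R ^ 2)) := by
      apply mul_le_mul_of_nonneg_left _ (by positivity)
      linarith
    have h6 : K * (t₁ - ε) ≤ K * t₁ := mul_le_mul_of_nonneg_left (by linarith [hεt.1]) hKpos.le
    linarith
  exact h1.trans h2

/-- No solution of the flow near `a` can have an initial value with a logarithmic pole at `a`. -/
theorem no_flow {u : (Fin n → ℂ) → ℝ → ℝ} {a : Fin n → ℂ}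
    {R T M ν C : ℝ} (hR : 0 < R) (hT : 0 < T) (hν : 0 < ν)
    (hC : ∀ t ∈ Set.Ioo 0 T, ∀ x ∈ closedBall a (2 * R), ContDiffAt ℝ 2 (fun w => u w t) x)
    (hcont : ContinuousOn (fun p : (Fin n → ℂ) × ℝ => u p.1 p.2)
      (closedBall a (2 * R) ×ˢ Set.Ioo 0 T))
    (hpos : ∀ t ∈ Set.Ioo 0 T, ∀ x ∈ closedBall a (2 * R), (cHess (fun w => u w t) x).PosDef)
    (hflow : ∀ t ∈ Set.Ioo 0 T, ∀ x ∈ closedBall a (2 * R),
      HasDerivAt (fun s => u x s) (Real.log (cHess (fun w => u w t) x).det.re) t)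
    (hM : ∀ t ∈ Set.Ioo 0 T, ∀ x ∈ closedBall a (2 * R), u x t ≤ M)
    (hlim : ∀ δ > 0, ∀ᵐ x ∂(volume.restrict (closedBall a (2 * R))),
      ∀ ε > 0, ∀ᶠ t in 𝓝[>] (0 : ℝ), u x t ≤ (ν / 2 * lg a δ x + C) + ε) : False := by
  obtain ⟨t₁, ht0, htT, htn⟩ : ∃ t₁ : ℝ, 0 < t₁ ∧ t₁ < T ∧ n * t₁ ≤ ν / 4 := by
    refine ⟨min (T / 2) (ν / (4 * (n + 1))), by positivity,
      lt_of_le_of_lt (min_le_left _ _) (by linarith), ?_⟩
    calc (n : ℝ) * min (T / 2) (ν / (4 * (n + 1))) ≤ (n + 1) * (ν / (4 * (n + 1))) := by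
          apply mul_le_mul (by linarith) (min_le_right _ _) (by positivity) (by positivity)
      _ = ν / 4 := by field_simp
  set A := max M (ν / 2 * Real.log (R ^ 2 + 1) + C + 1) +
        (n * (|Real.log (ν / 2)| + |Real.log (R ^ 2)|) + 1) * t₁ with hA
  have h1 : Tendsto Real.log (𝓝[>] 0) atBot := Real.tendsto_log_nhdsGT_zero
  have h2 := h1.eventually (eventually_lt_atBot ((u a t₁ - A) / (ν / 4) + Real.log (R ^ 2)))
  have h3 : ∀ᶠ δ in 𝓝[>] (0 : ℝ), δ ∈ Set.Ioo 0 1 := Ioo_mem_nhdsGT one_pos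
  obtain ⟨δ, hδ, hδ1⟩ := (h2.and h3).exists
  have h4 := core_estimate hR hν hC hcont hpos hflow hM ht0 htT htn hδ1.1 hδ1.2.le (hlim δ hδ1.1)
  have h5 : Real.log δ - Real.log (R ^ 2) < (u a t₁ - A) / (ν / 4) := by linarith
  have h6 : (ν / 4) * (Real.log δ - Real.log (R ^ 2)) < u a t₁ - A := by
    rw [lt_div_iff₀ (by positivity)] at h5
    linarith
  linarith

end Pool.Agent.H940R3.Flow
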