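import Pool.Agent.H940R3.Flow.General

open scoped Topology ENNReal ComplexConjugate ContDiff ComplexOrder
open MeasureTheory Filter Metric Pool.Agent.Helper853 Pool.Agent.Helper853.Df

namespace Pool.Agent.H940R3.Flow

variable {n : ℕ}

/-- the unit ball -/
def uball (n : ℕ) : Set (Fin n → ℂ) := {z | ∑ j, ‖z j‖ ^ 2 < 1}

lemma nsq_zero (z : Fin n → ℂ) : nsq 0 z = ∑ j, ‖z j‖ ^ 2 := by
  simp [nsq]

lemma isOpen_uball : IsOpen (uball n) :=
  isOpen_lt (by fun_prop) continuous_const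

lemma uball_subset : uball n ⊆ closedBall 0 1 := by
  intro z hz
  apply norm_le_of_nsq zero_le_one
  rw [nsq_zero]
  have : ∑ j, ‖z j‖ ^ 2 < 1 := hz
  linarith

lemma isBounded_uball : Bornology.IsBounded (uball n) := isBounded_closedBall.subset uball_subset

lemma zero_mem_uball : (0 : Fin n → ℂ) ∈ uball n := by
  simp [uball]

lemma isConnected_uball : IsConnected (uball n) := by
  have h : StarConvex ℝ 0 (uball n) := by
    intro y hy s t hs ht hst
    rw [smul_zero, zero_add]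
    have h1 : ∑ j, ‖y j‖ ^ 2 < 1 := hy
    have h2 : ∑ j, ‖(t • y) j‖ ^ 2 = t ^ 2 * ∑ j, ‖y j‖ ^ 2 := by
      rw [Finset.mul_sum]
      apply Finset.sum_congr rfl
      intro j _
      rw [Pi.smul_apply, norm_smul, Real.norm_of_nonneg ht]
      ring
    change ∑ j, ‖(t • y) j‖ ^ 2 < 1
    rw [h2]
    have h3 : t ^ 2 ≤ 1 := by nlinarith
    have h4 : 0 ≤ ∑ j, ‖y j‖ ^ 2 := Finset.sum_nonneg fun _ _ => by positivity
    nlinarith
  exact (h.isPathConnected zero_mem_uball).isConnected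

lemma frontier_uball {z : Fin n → ℂ} (hz : z ∈ frontier (uball n)) : ∑ j, ‖z j‖ ^ 2 = 1 := by
  have hcont : Continuous fun z : Fin n → ℂ => ∑ j, ‖z j‖ ^ 2 := by fun_prop
  have h1 := frontier_lt_subset_eq hcont continuous_const hz
  exact h1

/-- defining function -/
noncomputable def rho (z : Fin n → ℂ) : ℝ := ∑ j, ‖z j‖ ^ 2 - 1

lemma contDiff_rho : ContDiff ℝ ∞ (rho : (Fin n → ℂ) → ℝ) := by
  unfold rho
  apply ContDiff.sub _ contDiff_const
  apply ContDiff.sum
  intro j _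
  exact ContDiff.norm_sq ℂ (contDiff_apply ℝ ℂ j)

lemma lap2_rho (x b : Fin n → ℂ) : lap2 rho x b = 4 * ∑ j, ‖b j‖ ^ 2 := by
  have e : (rho : (Fin n → ℂ) → ℝ) = fun y => sumSq (FF' (0 : Fin n → ℂ) 0) y + (-1) := by
    ext y
    rw [sumSq_FF' 0 le_rfl, nsq_zero]
    unfold rho
    ring
  rw [e, lap2_add_const, lap2_sumSq (contDiff_FF' 0 0), Fintype.sum_option, fderiv_FF'_none]
  simp only [fderiv_FF'_some]
  simp

lemma posDef_rho (x : Fin n → ℂ) : (cHess rho x).PosDef := by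
  apply posDef_of_lap2_pos ((contDiff_rho.of_le ENat.LEInfty.out).contDiffAt)
  intro b hb
  rw [lap2_rho]
  obtain ⟨j, hj⟩ : ∃ j, b j ≠ 0 := by
    by_contra h
    push Not at h
    exact hb (funext h)
  have h1 : ‖b j‖ ^ 2 ≤ ∑ j, ‖b j‖ ^ 2 :=
    Finset.single_le_sum (f := fun j => ‖b j‖ ^ 2) (fun i _ => by positivity) (Finset.mem_univ j)
  have h2 : 0 < ‖b j‖ ^ 2 := by positivity
  linarith

lemma fderiv_rho {x : Fin n → ℂ} (hx : ∑ j, ‖x j‖ ^ 2 = 1) : fderiv ℝ rho x ≠ 0 := by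
  intro h0
  have hd : HasFDerivAt rho (0 : (Fin n → ℂ) →L[ℝ] ℝ) x := by
    rw [← h0]
    exact ((contDiff_rho.differentiable (by simp)).differentiableAt).hasFDerivAt
  have hline : HasDerivAt (fun t : ℝ => t • x) x 1 := by
    have := (hasDerivAt_id (1 : ℝ)).smul_const x
    simpa using this
  have h1 : HasDerivAt (fun t : ℝ => rho (t • x)) 0 1 := by
    have hd' : HasFDerivAt rho (0 : (Fin n → ℂ) →L[ℝ] ℝ) ((1 : ℝ) • x) := by
      rw [one_smul]; exact hd
    have h3 := hd'.comp_hasDerivAt (1 : ℝ) hline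
    have h4 : HasDerivAt (fun t : ℝ => rho (t • x)) ((0 : (Fin n → ℂ) →L[ℝ] ℝ) x) 1 := h3
    exact h4
  have e : (fun t : ℝ => rho (t • x)) = fun t => t ^ 2 - 1 := by
    ext t
    unfold rho
    have h2 : ∑ j, ‖(t • x) j‖ ^ 2 = t ^ 2 * ∑ j, ‖x j‖ ^ 2 := by
      rw [Finset.mul_sum]
      apply Finset.sum_congr rfl
      intro j _
      rw [Pi.smul_apply, norm_smul, mul_pow, Real.norm_eq_abs, sq_abs]
    rw [h2, hx, mul_one]
  rw [e] at h1
  have h2 : HasDerivAt (fun t : ℝ => t ^ 2 - 1) 2 1 := by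
    have := (hasDerivAt_pow 2 (1 : ℝ)).sub_const 1
    simpa using this
  have := h1.unique h2
  norm_num at this

/-- `log |z|`, with value `-∞` at the origin -/
noncomputable def logNorm (z : Fin n → ℂ) : EReal :=
  if z = 0 then ⊥ else ((1 / 2 * Real.log (∑ j, ‖z j‖ ^ 2) : ℝ) : EReal)

lemma sum_pos_of_ne {z : Fin n → ℂ} (hz : z ≠ 0) : 0 < ∑ j, ‖z j‖ ^ 2 := by
  obtain ⟨j, hj⟩ : ∃ j, z j ≠ 0 := by
    by_contra h
    push Not at h
    exact hz (funext h)
  have h1 : ‖z j‖ ^ 2 ≤ ∑ j, ‖z j‖ ^ 2 :=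
    Finset.single_le_sum (f := fun j => ‖z j‖ ^ 2) (fun i _ => by positivity) (Finset.mem_univ j)
  have h2 : 0 < ‖z j‖ ^ 2 := by positivity
  linarith

lemma logNorm_le (z : Fin n → ℂ) {δ : ℝ} (hδ : 0 < δ) :
    logNorm z ≤ ((1 / 2 * lg 0 δ z : ℝ) : EReal) := by
  unfold logNorm
  split_ifs with h
  · exact bot_le
  · rw [EReal.coe_le_coe_iff]
    have h1 : Real.log (∑ j, ‖z j‖ ^ 2) ≤ lg 0 δ z := by
      unfold lg
      rw [nsq_zero]
      exact Real.log_le_log (sum_pos_of_ne h) (by linarith)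
    linarith

lemma logNorm_tendsto (z : Fin n → ℂ) :
    Tendsto (fun δ : ℝ => ((1 / 2 * lg 0 δ z : ℝ) : EReal)) (𝓝[>] 0) (𝓝 (logNorm z)) := by
  unfold logNorm
  split_ifs with h
  · rw [EReal.tendsto_coe_nhds_bot_iff]
    have e : (fun δ : ℝ => 1 / 2 * lg 0 δ z) = fun δ => 1 / 2 * Real.log δ := by
      ext δ
      unfold lg
      rw [nsq_zero, h]
      simp
    rw [e]
    exact Real.tendsto_log_nhdsGT_zero.const_mul_atBot (by norm_num)
  · apply (continuous_coe_real_ereal.tendsto _).comp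
    have hpos := sum_pos_of_ne h
    have h1 : Tendsto (fun δ : ℝ => δ + nsq 0 z) (𝓝[>] 0) (𝓝 (∑ j, ‖z j‖ ^ 2)) := by
      have h2 : Tendsto (fun δ : ℝ => δ + nsq 0 z) (𝓝 0) (𝓝 (0 + nsq 0 z)) :=
        (continuous_id.add continuous_const).tendsto 0
      rw [zero_add, nsq_zero] at h2
      rw [nsq_zero]
      exact h2.mono_left nhdsWithin_le_nhds
    exact (h1.log hpos.ne').const_mul _

lemma logNorm_usc : UpperSemicontinuous (logNorm : (Fin n → ℂ) → EReal) := by
  intro x y hy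
  have h1 := (logNorm_tendsto x).eventually (gt_mem_nhds hy)
  have h2 : ∀ᶠ δ in 𝓝[>] (0 : ℝ), 0 < δ := eventually_mem_nhdsWithin
  obtain ⟨δ, hδ1, hδ⟩ := (h1.and h2).exists
  have hc : Continuous fun z : Fin n → ℂ => ((1 / 2 * lg 0 δ z : ℝ) : EReal) :=
    continuous_coe_real_ereal.comp (continuous_const.mul (contDiff_lg 0 hδ).continuous)
  filter_upwards [hc.continuousAt.eventually (gt_mem_nhds hδ1)] with z hz
  exact lt_of_le_of_lt (logNorm_le z hδ) hz

lemma logNorm_ne_top (z : Fin n → ℂ) : logNorm z ≠ ⊤ := by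
  unfold logNorm
  split_ifs
  · exact bot_ne_top
  · exact EReal.coe_ne_top _

lemma logNorm_submean (a b : Fin n → ℂ) (M : ℝ) :
    logNorm a ≤ (((2 * Real.pi)⁻¹ * ∫ θ in (0 : ℝ)..(2 * Real.pi),
        (max (logNorm (a + Complex.exp (θ * Complex.I) • b)) (M : EReal)).toReal : ℝ) : EReal) := by
  set p : ℝ → Fin n → ℂ := fun θ => a + Complex.exp (θ * Complex.I) • b with hp
  have hpc : Continuous p := by fun_prop
  set I : ℝ → ℝ := fun δ => ∫ θ in (0 : ℝ)..(2 * Real.pi), max (1 / 2 * lg 0 δ (p θ)) M with hI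
  have hpos : ∀ᶠ δ in 𝓝[>] (0 : ℝ), δ ∈ Set.Ioo (0 : ℝ) 1 := Ioo_mem_nhdsGT one_pos
  have hcont : ∀ δ, 0 < δ → Continuous fun θ => 1 / 2 * lg 0 δ (p θ) := fun δ hδ =>
    continuous_const.mul ((contDiff_lg 0 hδ).continuous.comp hpc)
  have hlim : Tendsto I (𝓝[>] 0) (𝓝 (∫ θ in (0 : ℝ)..(2 * Real.pi),
        (max (logNorm (p θ)) (M : EReal)).toReal)) := by
    apply intervalIntegral.tendsto_integral_filter_of_dominated_convergence
      (fun θ => |M| + |1 / 2 * lg 0 1 (p θ)|)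
    · filter_upwards [hpos] with δ hδ
      exact ((hcont δ hδ.1).max continuous_const).aestronglyMeasurable
    · filter_upwards [hpos] with δ hδ
      refine Eventually.of_forall fun θ _ => ?_
      have h1 : lg 0 δ (p θ) ≤ lg 0 1 (p θ) := by
        unfold lg
        exact Real.log_le_log (pos_S 0 hδ.1 _) (by linarith [hδ.2])
      rw [Real.norm_eq_abs, abs_le]
      have h2 := neg_abs_le M
      have h3 := le_abs_self M
      have h4 := le_abs_self (1 / 2 * lg 0 1 (p θ))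
      have h5 := abs_nonneg (1 / 2 * lg 0 1 (p θ))
      have h6 := abs_nonneg M
      refine ⟨?_, ?_⟩
      · have := le_max_right (1 / 2 * lg 0 δ (p θ)) M
        linarith
      · apply max_le <;> linarith
    · apply Continuous.intervalIntegrable
      exact continuous_const.add (hcont 1 one_pos).abs
    · refine Eventually.of_forall fun θ _ => ?_
      have h1 : Tendsto (fun δ : ℝ => max ((1 / 2 * lg 0 δ (p θ) : ℝ) : EReal) (M : EReal))
          (𝓝[>] 0) (𝓝 (max (logNorm (p θ)) (M : EReal))) :=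
        (logNorm_tendsto (p θ)).max tendsto_const_nhds
      have h2 : max (logNorm (p θ)) (M : EReal) ≠ ⊤ := by
        rcases max_choice (logNorm (p θ)) (M : EReal) with h | h <;> rw [h]
        · exact logNorm_ne_top _
        · exact EReal.coe_ne_top _
      have h3 : max (logNorm (p θ)) (M : EReal) ≠ ⊥ := by
        apply ne_of_gt
        exact lt_of_lt_of_le (EReal.bot_lt_coe M) (le_max_right _ _)
      have h4 := (EReal.tendsto_toReal h2 h3).comp h1
      refine h4.congr fun δ => ?_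
      simp only [Function.comp]
      rw [coe_max', EReal.toReal_coe]
  have hlim2 : Tendsto (fun δ => (((2 * Real.pi)⁻¹ * I δ : ℝ) : EReal)) (𝓝[>] 0)
      (𝓝 (((2 * Real.pi)⁻¹ * ∫ θ in (0 : ℝ)..(2 * Real.pi),
        (max (logNorm (p θ)) (M : EReal)).toReal : ℝ) : EReal)) :=
    (continuous_coe_real_ereal.tendsto _).comp (hlim.const_mul _)
  apply ge_of_tendsto hlim2
  filter_upwards [hpos] with δ hδ
  refine (logNorm_le a hδ.1).trans ?_
  rw [EReal.coe_le_coe_iff]
  have hcd : ∀ x ∈ (Set.univ : Set (Fin n → ℂ)), ContDiffAt ℝ 2 (fun z => 1 / 2 * lg 0 δ z) x :=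
    fun x _ => contDiffAt_const.mul
      ((contDiff_lg 0 hδ.1).of_le ENat.LEInfty.out).contDiffAt
  have hsub := submean_disc (Ω := Set.univ) (g := fun z => 1 / 2 * lg 0 δ z)
    (continuous_const.mul (contDiff_lg 0 hδ.1).continuous).continuousOn hcd
    (fun x _ b => by
      rw [lap2_const_mul ((contDiff_lg 0 hδ.1).of_le ENat.LEInfty.out).contDiffAt]
      have := lap2_lg_nonneg 0 hδ.1 x b
      positivity) (a := a) (b := b) (fun _ _ => Set.mem_univ _)
  refine hsub.trans ?_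
  gcongr
  apply intervalIntegral.integral_mono_on (by positivity)
    ((hcont δ hδ.1).intervalIntegrable _ _)
    (((hcont δ hδ.1).max continuous_const).intervalIntegrable _ _)
  intro θ _
  exact le_max_left _ _

end Pool.Agent.H940R3.Flow
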