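import Pool.Agent.H940R3.Flow.Core

open scoped Topology ENNReal ComplexConjugate ContDiff ComplexOrder
open MeasureTheory Filter Metric Pool.Agent.Helper853 Pool.Agent.Helper853.Df

namespace Pool.Agent.H940R3.Flow

variable {n : ℕ}

lemma lap2_pos_of_posDef {g : (Fin n → ℂ) → ℝ} {x : Fin n → ℂ} (hg : ContDiffAt ℝ 2 g x)
    (h : (cHess g x).PosDef) {b : Fin n → ℂ} (hb : b ≠ 0) : 0 < lap2 g x b := by
  have h1 := h.dotProduct_mulVec_pos (x := star b) (by simpa using hb)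
  rw [cHess_quadForm hg, star_star] at h1
  have h2 := Complex.zero_lt_real.mp h1
  linarith

lemma posDef_of_lap2_pos {g : (Fin n → ℂ) → ℝ} {x : Fin n → ℂ} (hg : ContDiffAt ℝ 2 g x)
    (h : ∀ b, b ≠ 0 → 0 < lap2 g x b) : (cHess g x).PosDef := by
  refine Matrix.PosDef.of_dotProduct_mulVec_pos (cHess_isHermitian hg) ?_
  intro v hv
  rw [cHess_quadForm hg]
  have := h (star v) (by simpa using hv)
  exact Complex.zero_lt_real.mpr (by linarith)

/-- General obstruction: if the initial datum has a logarithmic pole of positive strength at a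
point `a` of the bounded open set `Ω`, there is no solution of the flow, whatever the boundary
data. Only interior `C²` regularity and continuity up to the boundary are used, and of the initial
condition only the upper bound at almost every point near `a`. -/
theorem no_solution (hn : 1 ≤ n) {Ω : Set (Fin n → ℂ)} (hΩ : IsOpen Ω)
    (hb : Bornology.IsBounded Ω) {T : ℝ} (hT : 0 < T) {u₀ : (Fin n → ℂ) → EReal}
    {φ u : (Fin n → ℂ) → ℝ → ℝ}
    (hφ : ContinuousOn (fun p : (Fin n → ℂ) × ℝ => φ p.1 p.2) (closure Ω ×ˢ Set.Ico 0 T))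
    (hsm : ContDiffOn ℝ 2 (fun p : (Fin n → ℂ) × ℝ => u p.1 p.2) (Ω ×ˢ Set.Ioo 0 T))
    (hct : ContinuousOn (fun p : (Fin n → ℂ) × ℝ => u p.1 p.2) (closure Ω ×ˢ Set.Ioo 0 T))
    (hpsh : ∀ t ∈ Set.Ioo 0 T, ∀ z ∈ Ω, (cHess (fun w => u w t) z).PosDef)
    (hflow : ∀ t ∈ Set.Ioo 0 T, ∀ z ∈ Ω,
      deriv (fun s => u z s) t = Real.log (cHess (fun w => u w t) z).det.re)
    (hbd : ∀ z ∈ frontier Ω, ∀ t ∈ Set.Ioo 0 T, u z t = φ z t)
    {a : Fin n → ℂ} (ha : a ∈ Ω) {ν C : ℝ} (hν : 0 < ν)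
    (hpole : ∀ᶠ z in 𝓝[≠] a, u₀ z ≤ ((ν / 2 * Real.log (nsq a z) + C : ℝ) : EReal))
    (hini : ∀ᶠ z in 𝓝[≠] a, ∀ c : ℝ, u₀ z < (c : EReal) → ∀ᶠ t in 𝓝[>] (0 : ℝ), u z t ≤ c) :
    False := by
  -- joint regularity at interior points
  have hjoint : ∀ t ∈ Set.Ioo 0 T, ∀ z ∈ Ω,
      ContDiffAt ℝ 2 (fun p : (Fin n → ℂ) × ℝ => u p.1 p.2) (z, t) := by
    intro t ht z hz
    apply hsm.contDiffAt
    exact (hΩ.prod isOpen_Ioo).mem_nhds ⟨hz, ht⟩
  have hslice : ∀ t ∈ Set.Ioo 0 T, ∀ z ∈ Ω, ContDiffAt ℝ 2 (fun w => u w t) z := by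
    intro t ht z hz
    have h1 : ContDiffAt ℝ 2 (fun w : Fin n → ℂ => (w, t)) z :=
      contDiffAt_id.prodMk contDiffAt_const
    exact (hjoint t ht z hz).comp z h1
  have htime : ∀ t ∈ Set.Ioo 0 T, ∀ z ∈ Ω,
      HasDerivAt (fun s => u z s) (Real.log (cHess (fun w => u w t) z).det.re) t := by
    intro t ht z hz
    have h1 : ContDiffAt ℝ 2 (fun s : ℝ => (z, s)) t := contDiffAt_const.prodMk contDiffAt_id
    have h2 : ContDiffAt ℝ 2 (fun s => u z s) t := (hjoint t ht z hz).comp t h1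
    rw [← hflow t ht z hz]
    exact (h2.differentiableAt (by norm_num)).hasDerivAt
  -- upper bound
  have hcl : IsCompact (closure Ω) := hb.isCompact_closure
  have hT' : 0 < T / 2 := by positivity
  have hsub' : Set.Icc 0 (T / 2) ⊆ Set.Ico 0 T := fun s hs => ⟨hs.1, by linarith [hs.2]⟩
  have hsub : Set.Ioo 0 (T / 2) ⊆ Set.Ioo 0 T := fun s hs => ⟨hs.1, by linarith [hs.2]⟩
  obtain ⟨M, hM⟩ := ((hcl.prod (isCompact_Icc (a := (0 : ℝ)) (b := T / 2))).image_of_continuousOn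
    (hφ.mono (Set.prod_mono le_rfl hsub'))).bddAbove
  have hup : ∀ t ∈ Set.Ioo 0 (T / 2), ∀ z ∈ closure Ω, u z t ≤ M := by
    intro t ht z hz
    have htT := hsub ht
    apply le_of_boundary hΩ hb hn (g := fun w => u w t) _ (hslice t htT)
      (fun x hx b hb => lap2_pos_of_posDef (hslice t htT x hx) (hpsh t htT x hx) hb) _ hz
    · have h1 : ContinuousOn (fun w : Fin n → ℂ => (w, t)) (closure Ω) := by fun_prop
      exact hct.comp h1 (fun w hw => ⟨hw, htT⟩)
    · intro x hx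
      rw [hbd x hx t htT]
      exact hM ⟨(x, t), ⟨frontier_subset_closure hx, ht.1.le, ht.2.le⟩, rfl⟩
  -- a good ball
  obtain ⟨r, hr, hball⟩ := Metric.nhds_basis_closedBall.mem_iff.mp (hΩ.mem_nhds ha)
  obtain ⟨r', hr', hball'⟩ := Metric.nhds_basis_closedBall.mem_iff.mp
    (mem_nhdsWithin_iff_eventually.mp (hpole.and hini))
  set R := min r r' / 2 with hRdef
  have hR : 0 < R := by positivity
  have h2R : 2 * R = min r r' := by rw [hRdef]; ring
  have hRΩ : closedBall a (2 * R) ⊆ Ω :=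
    (closedBall_subset_closedBall (by rw [h2R]; exact min_le_left _ _)).trans hball
  have hRp : ∀ z ∈ closedBall a (2 * R), z ≠ a →
      u₀ z ≤ ((ν / 2 * Real.log (nsq a z) + C : ℝ) : EReal) ∧
      ∀ c : ℝ, u₀ z < (c : EReal) → ∀ᶠ t in 𝓝[>] (0 : ℝ), u z t ≤ c := by
    intro z hz hza
    exact hball' (closedBall_subset_closedBall (by rw [h2R]; exact min_le_right _ _) hz) hza
  refine no_flow (u := u) (a := a) (M := M) (ν := ν) (C := C) hR hT' hν
    (fun t ht x hx => hslice t (hsub ht) x (hRΩ hx))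
    (hct.mono (Set.prod_mono (hRΩ.trans subset_closure) hsub))
    (fun t ht x hx => hpsh t (hsub ht) x (hRΩ hx))
    (fun t ht x hx => htime t (hsub ht) x (hRΩ hx))
    (fun t ht x hx => hup t ht x (subset_closure (hRΩ hx))) ?_
  intro δ hδ
  have hne : ∀ᵐ x ∂(volume.restrict (closedBall a (2 * R))), x ≠ a := by
    have : Nonempty (Fin n) := ⟨⟨0, hn⟩⟩
    have h1 : (volume : Measure (Fin n → ℂ)) {a} = 0 := measure_singleton a
    have h2 : ∀ᵐ x ∂(volume : Measure (Fin n → ℂ)), x ≠ a := by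
      rw [ae_iff]
      simp
    exact ae_restrict_of_ae h2
  filter_upwards [hne, ae_restrict_mem isClosed_closedBall.measurableSet] with x hxa hx ε hε
  obtain ⟨h1, h2⟩ := hRp x hx hxa
  have hnpos : 0 < nsq a x := by
    rcases (nsq_nonneg a x).lt_or_eq with h | h
    · exact h
    · exfalso
      apply hxa
      have h3 : ∀ j ∈ Finset.univ, ‖x j - a j‖ ^ 2 = 0 :=
        (Finset.sum_eq_zero_iff_of_nonneg (fun j _ => by positivity)).mp h.symm
      ext j
      have h4 := h3 j (Finset.mem_univ j)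
      have h5 : x j - a j = 0 := by simpa using h4
      exact sub_eq_zero.mp h5
  have h3 : Real.log (nsq a x) ≤ lg a δ x := Real.log_le_log hnpos (by linarith)
  apply h2
  refine lt_of_le_of_lt h1 (EReal.coe_lt_coe_iff.mpr ?_)
  have h4 : ν / 2 * Real.log (nsq a x) ≤ ν / 2 * lg a δ x := by gcongr
  linarith

end Pool.Agent.H940R3.Flow
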