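import Pool.Agent.H940R3.Flow.Ball

open scoped Topology ENNReal ComplexConjugate ContDiff
open MeasureTheory Filter Metric Pool.Agent.Helper853 Pool.Agent.Helper853.Df

namespace Pool.Agent.H940R3.Flow

variable {n : ℕ}

/-- translation of the integral over a ball -/
lemma integral_ball_translate (p : (Fin n → ℂ) → ℝ) (z : Fin n → ℂ) (ρ : ℝ) :
    ∫ x in ball (0 : Fin n → ℂ) ρ, p (z + x) = ∫ x in ball z ρ, p x := by
  have h := (measurePreserving_add_left (volume : Measure (Fin n → ℂ)) z).setIntegral_preimage_emb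
    (MeasurableEquiv.addLeft z).measurableEmbedding p (ball z ρ)
  have hpre : (fun x : Fin n → ℂ => z + x) ⁻¹' (ball z ρ) = ball 0 ρ := by
    ext x
    simp [dist_eq_norm]
  rw [hpre] at h
  exact h

/-- Hartogs lemma along the flow: a pointwise upper bound of the initial value by a continuous
function is attained uniformly on compact balls. -/
lemma hartogs {u : (Fin n → ℂ) → ℝ → ℝ} {a : Fin n → ℂ} {R T M : ℝ} (hR : 0 < R) (hT : 0 < T)
    (hC : ∀ t ∈ Set.Ioo 0 T, ∀ x ∈ closedBall a (2 * R), ContDiffAt ℝ 2 (fun w => u w t) x)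
    (hL : ∀ t ∈ Set.Ioo 0 T, ∀ x ∈ closedBall a (2 * R), ∀ b, 0 ≤ lap2 (fun w => u w t) x b)
    (hM : ∀ t ∈ Set.Ioo 0 T, ∀ x ∈ closedBall a (2 * R), u x t ≤ M)
    {f : (Fin n → ℂ) → ℝ} (hf : Continuous f)
    (hlim : ∀ᵐ x ∂(volume.restrict (closedBall a (2 * R))),
      ∀ ε > 0, ∀ᶠ t in 𝓝[>] (0 : ℝ), u x t ≤ f x + ε)
    {η : ℝ} (hη : 0 < η) :
    ∀ᶠ t in 𝓝[>] (0 : ℝ), ∀ z ∈ closedBall a R, u z t ≤ f z + η := by
  set K := closedBall a (2 * R) with hK
  have hKc : IsCompact K := isCompact_closedBall _ _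
  have huc := hKc.uniformContinuousOn_of_continuous hf.continuousOn
  obtain ⟨ρ₀, hρ₀, hρ⟩ := Metric.uniformContinuousOn_iff.mp huc (η / 2) (by positivity)
  set ρ := min (ρ₀ / 2) R with hρdef
  have hρpos : 0 < ρ := by positivity
  have hρR : ρ ≤ R := min_le_right _ _
  have hρ2 : ρ < ρ₀ := lt_of_le_of_lt (min_le_left _ _) (by linarith)
  obtain ⟨m, hm⟩ := (hKc.image hf).bddBelow
  have hm' : ∀ x ∈ K, m ≤ f x := fun x hx => hm ⟨x, hx, rfl⟩
  set p : ℝ → (Fin n → ℂ) → ℝ := fun t x => max (u x t - f x) 0 with hp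
  have hev : ∀ᶠ t in 𝓝[>] (0 : ℝ), t ∈ Set.Ioo 0 T := Ioo_mem_nhdsGT hT
  have hcu : ∀ t ∈ Set.Ioo 0 T, ContinuousOn (fun w => u w t) K := fun t ht x hx =>
    (hC t ht x hx).continuousAt.continuousWithinAt
  have hpc : ∀ t ∈ Set.Ioo 0 T, ContinuousOn (p t) K := fun t ht =>
    ContinuousOn.sup ((hcu t ht).sub hf.continuousOn) continuousOn_const
  have hfin : IsFiniteMeasure (volume.restrict K) := ⟨by
    rw [Measure.restrict_apply MeasurableSet.univ, Set.univ_inter]
    exact hKc.measure_lt_top⟩
  have hlim2 : Tendsto (fun t => ∫ x in K, p t x) (𝓝[>] 0) (𝓝 (∫ x in K, (0 : ℝ))) := by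
    apply tendsto_integral_filter_of_dominated_convergence (fun _ => max (M - m) 0)
    · filter_upwards [hev] with t ht
      exact (hpc t ht).aestronglyMeasurable isClosed_closedBall.measurableSet
    · filter_upwards [hev] with t ht
      filter_upwards [ae_restrict_mem isClosed_closedBall.measurableSet] with x hx
      rw [Real.norm_of_nonneg (le_max_right _ _)]
      have h1 := hM t ht x hx
      have h2 := hm' x hx
      exact max_le_max (by linarith) le_rfl
    · exact integrable_const _
    · filter_upwards [hlim] with x hx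
      rw [Metric.tendsto_nhds]
      intro ε hε
      filter_upwards [hx (ε / 2) (by positivity)] with t ht
      rw [dist_zero_right, Real.norm_of_nonneg (le_max_right _ _)]
      exact max_lt (by linarith) hε
  rw [integral_zero] at hlim2
  set V := (volume (ball (0 : Fin n → ℂ) ρ)).toReal with hV
  have hVpos : 0 < V := ENNReal.toReal_pos (measure_ball_pos _ _ hρpos).ne'
    measure_ball_lt_top.ne
  have hsmall : ∀ᶠ t in 𝓝[>] (0 : ℝ), ∫ x in K, p t x < V * (η / 2) :=
    hlim2.eventually (gt_mem_nhds (by positivity))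
  filter_upwards [hev, hsmall] with t ht hst z hz
  have hzK : closedBall z ρ ⊆ K := by
    intro w hw
    rw [mem_closedBall] at hw hz ⊢
    calc dist w a ≤ dist w z + dist z a := dist_triangle _ _ _
      _ ≤ 2 * R := by linarith
  have hzK0 : z ∈ K := hzK (mem_closedBall_self hρpos.le)
  have h1 := submean_ball (hcu t ht) (hC t ht) (hL t ht) hzK
  rw [← hV] at h1
  have hint1 : IntegrableOn (fun x => u (z + x) t) (ball (0 : Fin n → ℂ) ρ) := by
    have : ContinuousOn (fun x => u (z + x) t) (closedBall (0 : Fin n → ℂ) ρ) := by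
      apply (hcu t ht).comp (by fun_prop)
      intro x hx
      apply hzK
      simpa [dist_eq_norm] using hx
    exact (this.integrableOn_compact (isCompact_closedBall _ _)).mono_set ball_subset_closedBall
  have hint2 : IntegrableOn (fun x => p t (z + x)) (ball (0 : Fin n → ℂ) ρ) := by
    have : ContinuousOn (fun x => p t (z + x)) (closedBall (0 : Fin n → ℂ) ρ) := by
      apply (hpc t ht).comp (by fun_prop)
      intro x hx
      apply hzK
      simpa [dist_eq_norm] using hx
    exact (this.integrableOn_compact (isCompact_closedBall _ _)).mono_set ball_subset_closedBall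
  have h2 : ∫ x in ball (0 : Fin n → ℂ) ρ, u (z + x) t ≤
      ∫ x in ball (0 : Fin n → ℂ) ρ, ((f z + η / 2) + p t (z + x)) := by
    have hcst : IntegrableOn (fun _ : Fin n → ℂ => f z + η / 2) (ball (0 : Fin n → ℂ) ρ) :=
      integrableOn_const measure_ball_lt_top.ne
    apply setIntegral_mono_on hint1 (hcst.add hint2) isOpen_ball.measurableSet
    intro x hx
    have hxK : z + x ∈ K := hzK (by
      have := ball_subset_closedBall hx
      simpa [dist_eq_norm] using this)
    have h3 : dist (f (z + x)) (f z) < η / 2 := by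
      apply hρ _ hxK _ hzK0
      rw [dist_eq_norm, add_sub_cancel_left]
      exact lt_trans (mem_ball_zero_iff.mp hx) hρ2
    rw [Real.dist_eq] at h3
    have h4 := (abs_lt.mp h3).2
    have h5 : u (z + x) t - f (z + x) ≤ p t (z + x) := le_max_left _ _
    change u (z + x) t ≤ (f z + η / 2) + p t (z + x)
    linarith
  have h3 : ∫ x in ball (0 : Fin n → ℂ) ρ, ((f z + η / 2) + p t (z + x)) =
      (f z + η / 2) * V + ∫ x in ball z ρ, p t x := by
    have hcst : IntegrableOn (fun _ : Fin n → ℂ => f z + η / 2) (ball (0 : Fin n → ℂ) ρ) :=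
      integrableOn_const measure_ball_lt_top.ne
    rw [integral_add hcst hint2, integral_ball_translate]
    congr 1
    rw [setIntegral_const, smul_eq_mul, mul_comm]
    rfl
  have h4 : ∫ x in ball z ρ, p t x ≤ ∫ x in K, p t x := by
    apply setIntegral_mono_set ((hpc t ht).integrableOn_compact hKc)
    · exact Eventually.of_forall fun x => le_max_right _ _
    · exact (ball_subset_closedBall.trans hzK).eventuallyLE
  have h5 : u z t * V < (f z + η) * V := by
    calc u z t * V ≤ (f z + η / 2) * V + ∫ x in ball z ρ, p t x := by linarith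
      _ < (f z + η / 2) * V + V * (η / 2) := by linarith
      _ = (f z + η) * V := by ring
  exact (lt_of_mul_lt_mul_right h5 hVpos.le).le

end Pool.Agent.H940R3.Flow
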