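import Pool.Agent.Helper853.Df.Crit
import Pool.Agent.Helper853.LogSum

open scoped Topology ENNReal ComplexConjugate ContDiff
open MeasureTheory Filter Metric Pool.Agent.Helper853 Pool.Agent.Helper853.Df

namespace Pool.Agent.H940R3.Flow

variable {n : ℕ}

/-- second derivative of a function along a complex line -/
lemma SD_line {g : (Fin n → ℂ) → ℝ} {a b : Fin n → ℂ} {z : ℂ}
    (hg : ContDiffAt ℝ 2 g (a + z • b)) (v : ℂ) :
    SD (fun ζ => g (a + ζ • b)) z v
      (fderiv ℝ (fderiv ℝ g) (a + z • b) (v • b) (v • b)) := by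
  have hγd : ∀ z : ℂ, HasDerivAt (fun ζ : ℂ => a + ζ • b) b z := by
    intro z
    have := ((hasDerivAt_id z).smul_const b).const_add a
    simpa using this
  have hγ1 : deriv (fun ζ : ℂ => a + ζ • b) = fun _ => b := funext fun z => (hγd z).deriv
  have h := SD_comp (γ := fun ζ : ℂ => a + ζ • b) hg
    (Eventually.of_forall fun y => (hγd y).differentiableAt) v
  rw [hγ1] at h
  simpa using h

/-- At a local maximum the Levi form is nonpositive. -/
lemma lap2_nonpos_of_isLocalMax {g : (Fin n → ℂ) → ℝ} {x : Fin n → ℂ}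
    (hg : ContDiffAt ℝ 2 g x) (hm : IsLocalMax g x) (b : Fin n → ℂ) :
    lap2 g x b ≤ 0 := by
  have h0 : x + (0 : ℂ) • b = x := by simp
  have hg' : ContDiffAt ℝ 2 g (x + (0 : ℂ) • b) := by rw [h0]; exact hg
  have ht : Tendsto (fun ζ : ℂ => x + ζ • b) (𝓝 0) (𝓝 x) := by
    have : Continuous fun ζ : ℂ => x + ζ • b := by fun_prop
    have := this.tendsto 0
    rwa [h0] at this
  have hloc : IsLocalMax (fun ζ : ℂ => g (x + ζ • b)) 0 := by
    have := ht.eventually hm
    rw [IsLocalMax, IsMaxFilter, h0]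
    exact this
  have h1 := (SD_line hg' 1).nonpos_of_isLocalMax hloc
  have h2 := (SD_line hg' Complex.I).nonpos_of_isLocalMax hloc
  rw [h0] at h1 h2
  unfold lap2
  rw [one_smul] at h1
  linarith

/-- sub-mean value property on discs -/
lemma submean_disc {Ω : Set (Fin n → ℂ)} {g : (Fin n → ℂ) → ℝ}
    (hc : ContinuousOn g Ω) (hC : ∀ x ∈ Ω, ContDiffAt ℝ 2 g x)
    (hL : ∀ x ∈ Ω, ∀ b, 0 ≤ lap2 g x b) {a b : Fin n → ℂ}
    (hab : ∀ ζ : ℂ, ‖ζ‖ ≤ 1 → a + ζ • b ∈ Ω) :
    g a ≤ (2 * Real.pi)⁻¹ * ∫ θ in (0 : ℝ)..(2 * Real.pi),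
      g (a + Complex.exp (θ * Complex.I) • b) := by
  set k : ℂ → ℝ := fun ζ => g (a + ζ • b) with hk
  have hkc : ContinuousOn k (closedBall 0 1) := by
    apply hc.comp (by fun_prop)
    intro ζ hζ
    exact hab ζ (mem_closedBall_zero_iff.mp hζ)
  have hsub := submean_of_compare hkc (by
    intro K hK1 hK2 hK3
    have hm : ContinuousOn (fun z => k z + -(K z).re) (closedBall 0 1) :=
      hkc.add (Complex.continuous_re.comp_continuousOn hK1).neg
    have := max_principle hm (fun z hz => by linarith [hK3 z hz]) (fun z hz => by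
      have hmem := hab z hz.le
      have hKev : ∀ᶠ y in 𝓝 z, DifferentiableAt ℂ K y := by
        filter_upwards [isOpen_ball.mem_nhds (mem_ball_zero_iff.mpr hz)] with y hy
        exact hK2.differentiableAt (isOpen_ball.mem_nhds hy)
      have hre : ContDiffAt ℝ 2 (fun y : ℂ => y.re) (K z) := Complex.reCLM.contDiff.contDiffAt
      have k1 := (SD_line (hC _ hmem) 1).add (SD_comp (γ := K) hre hKev 1).neg
      have k2 := (SD_line (hC _ hmem) Complex.I).add (SD_comp (γ := K) hre hKev Complex.I).neg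
      refine ⟨_, _, k1, k2, ?_⟩
      have hf' : fderiv ℝ (fun y : ℂ => y.re) = fun _ => Complex.reCLM := by
        ext1 y
        exact Complex.reCLM.fderiv
      have hf2 : fderiv ℝ (fun _ : ℂ => Complex.reCLM) (K z) = 0 :=
        (hasFDerivAt_const Complex.reCLM (K z)).fderiv
      rw [hf', hf2]
      have h4 := hL _ hmem b
      unfold lap2 at h4
      simp only [_root_.zero_apply, one_smul, one_pow, Complex.I_sq, neg_smul, map_neg]
      linarith) (z := 0) (by simp)
    linarith)
  have h0 : k 0 = g a := by simp [hk]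
  rw [h0] at hsub
  exact hsub

/-- multiplication by a unimodular constant preserves the volume of `ℂ^n` -/
lemma mp_rot (c : ℂ) (hc : ‖c‖ = 1) :
    MeasurePreserving (fun x : Fin n → ℂ => c • x) volume volume := by
  have h1 : MeasurePreserving (fun z : ℂ => c * z) volume volume := by
    have := (rotation ⟨c, mem_sphere_zero_iff_norm.mpr hc⟩).measurePreserving
    exact this
  exact volume_preserving_pi fun _ => h1

end Pool.Agent.H940R3.Flow
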